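import Pool.Agent.Helper76.FT.GoalsC

/-!
# MP_39e2b7_an, packet FT-E

Properties of the Hamiltonian as a function of position and momentum.
-/

set_option autoImplicit false

namespace Pool.Agent.Helper89.FT

open Complex Set Filter Topology MeasureTheory
open Pool.Agent.Helper76.FT

/-- Cauchy estimate for the Frechet derivative of a bounded holomorphic function of two
variables -/
theorem fderiv_bd {G : ℂ × ℂ → ℂ} {P : Set (ℂ × ℂ)} {M r : ℝ} (hP : IsOpen P)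
    (hG : DifferentiableOn ℂ G P) (hM : ∀ z ∈ P, ‖G z‖ ≤ M) (hr : 0 < r) {z : ℂ × ℂ}
    (hz : Metric.closedBall z r ⊆ P) : ‖fderiv ℂ G z‖ ≤ M / r := by
  have hzP : z ∈ P := hz (Metric.mem_closedBall_self hr.le)
  have hM0 : 0 ≤ M := (norm_nonneg _).trans (hM z hzP)
  refine ContinuousLinearMap.opNorm_le_bound _ (by positivity) fun v => ?_
  by_cases hv : v = 0
  · subst hv
    simp
  have hv' : 0 < ‖v‖ := norm_pos_iff.2 hv
  have hR : 0 < r / ‖v‖ := by positivity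
  have hmem : ∀ c : ℂ, ‖c‖ ≤ r / ‖v‖ → z + c • v ∈ P := by
    intro c hc
    apply hz
    rw [Metric.mem_closedBall, dist_eq_norm]
    have : ‖c • v‖ ≤ r := by
      rw [norm_smul]
      calc ‖c‖ * ‖v‖ ≤ r / ‖v‖ * ‖v‖ := by gcongr
        _ = r := by field_simp
    simpa using this
  have hline : ∀ c : ℂ, HasDerivAt (fun c : ℂ => z + c • v) v c := by
    intro c
    simpa using ((hasDerivAt_id c).smul_const v).const_add z
  have hd : ∀ c : ℂ, ‖c‖ ≤ r / ‖v‖ → HasDerivAt (fun c : ℂ => G (z + c • v))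
      (fderiv ℂ G (z + c • v) v) c := by
    intro c hc
    have h1 : HasFDerivAt G (fderiv ℂ G (z + c • v)) (z + c • v) :=
      ((hG _ (hmem c hc)).differentiableAt (hP.mem_nhds (hmem c hc))).hasFDerivAt
    exact h1.comp_hasDerivAt c (hline c)
  have key : ‖deriv (fun c : ℂ => G (z + c • v)) 0‖ ≤ M / (r / ‖v‖) := by
    refine Complex.norm_deriv_le_of_forall_mem_sphere_norm_le hR ?_ ?_
    · refine DifferentiableOn.diffContOnCl (fun c hc => ?_)
      have hc' : ‖c‖ ≤ r / ‖v‖ := by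
        have := Metric.closure_ball_subset_closedBall hc
        simpa using this
      exact (hd c hc').differentiableAt.differentiableWithinAt
    · intro c hc
      have hc' : ‖c‖ ≤ r / ‖v‖ := by
        have : ‖c‖ = r / ‖v‖ := by simpa using hc
        exact this.le
      exact hM _ (hmem c hc')
  have h0 := hd 0 (by simpa using hR.le)
  rw [h0.deriv] at key
  simp only [zero_smul, add_zero] at key
  calc ‖fderiv ℂ G z v‖ ≤ M / (r / ‖v‖) := key
    _ = M / r * ‖v‖ := by field_simp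

/-- uniform radius -/
theorem exists_rad {P : Set (ℂ × ℂ)} (hP : IsOpen P)
    (hst : ∀ z ∈ P, ∀ s ∈ Icc (0:ℝ) 1, (z.1, s * z.2) ∈ P) {z₀ : ℂ × ℂ} (hz₀ : z₀ ∈ P) :
    ∃ r : ℝ, 0 < r ∧ ∀ z ∈ Metric.ball z₀ r, ∀ s ∈ Icc (0:ℝ) 1,
      Metric.closedBall ((z.1, s * z.2) : ℂ × ℂ) r ⊆ P := by
  have hK : IsCompact ((fun s : ℝ => ((z₀.1, s * z₀.2) : ℂ × ℂ)) '' Icc (0:ℝ) 1) := by
    refine isCompact_Icc.image ?_
    fun_prop
  have hKP : ((fun s : ℝ => ((z₀.1, s * z₀.2) : ℂ × ℂ)) '' Icc (0:ℝ) 1) ⊆ P := by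
    rintro _ ⟨s, hs, rfl⟩
    exact hst z₀ hz₀ s hs
  obtain ⟨δ, hδ, hδP⟩ := hK.exists_thickening_subset_open hP hKP
  refine ⟨δ / 2, by positivity, ?_⟩
  intro z hz s hs y hy
  apply hδP
  rw [Metric.mem_thickening_iff]
  refine ⟨(z₀.1, s * z₀.2), ⟨s, hs, rfl⟩, ?_⟩
  rw [Metric.mem_closedBall] at hy
  have h2 : dist ((z.1, s * z.2) : ℂ × ℂ) (z₀.1, s * z₀.2) ≤ dist z z₀ := by
    rw [Prod.dist_eq, Prod.dist_eq]
    apply max_le_max le_rfl
    simp only [dist_eq_norm]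
    rw [← mul_sub, norm_mul]
    have : ‖(s : ℂ)‖ ≤ 1 := by
      rw [Complex.norm_real, Real.norm_of_nonneg hs.1]
      exact hs.2
    calc ‖(s : ℂ)‖ * ‖z.2 - z₀.2‖ ≤ 1 * ‖z.2 - z₀.2‖ := by gcongr
      _ = ‖z.2 - z₀.2‖ := one_mul _
  rw [Metric.mem_ball] at hz
  calc dist y (z₀.1, s * z₀.2) ≤ dist y (z.1, s * z.2) + dist ((z.1, s * z.2) : ℂ × ℂ)
        (z₀.1, s * z₀.2) := dist_triangle _ _ _
    _ < δ / 2 + δ / 2 := by linarith
    _ = δ := by ring

/-- the linear map `(q, y) ↦ (q, s y)` -/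
noncomputable def LL (s : ℝ) : (ℂ × ℂ) →L[ℂ] (ℂ × ℂ) :=
  (ContinuousLinearMap.inl ℂ ℂ ℂ).comp (ContinuousLinearMap.fst ℂ ℂ ℂ) +
    (s : ℂ) • (ContinuousLinearMap.inr ℂ ℂ ℂ).comp (ContinuousLinearMap.snd ℂ ℂ ℂ)

theorem LL_apply (s : ℝ) (z : ℂ × ℂ) : LL s z = (z.1, s * z.2) := by
  simp [LL]

theorem LL_norm {s : ℝ} (hs : s ∈ Icc (0:ℝ) 1) : ‖LL s‖ ≤ 1 := by
  refine ContinuousLinearMap.opNorm_le_bound _ zero_le_one fun z => ?_
  rw [LL_apply, one_mul, Prod.norm_def, Prod.norm_def]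
  apply max_le_max le_rfl
  rw [norm_mul, Complex.norm_real, Real.norm_of_nonneg hs.1]
  exact mul_le_of_le_one_left (norm_nonneg _) hs.2

theorem LL_cont : Continuous LL :=
  continuous_const.add (Complex.continuous_ofReal.smul continuous_const)

/-- differentiation under the integral -/
theorem hasFDerivAt_int {G : ℂ × ℂ → ℂ} {P : Set (ℂ × ℂ)} {M : ℝ} (hP : IsOpen P)
    (hG : DifferentiableOn ℂ G P) (hM : ∀ z ∈ P, ‖G z‖ ≤ M)
    (hst : ∀ z ∈ P, ∀ s ∈ Icc (0:ℝ) 1, (z.1, s * z.2) ∈ P) {z₀ : ℂ × ℂ} (hz₀ : z₀ ∈ P) :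
    HasFDerivAt (fun z : ℂ × ℂ => ∫ s in (0:ℝ)..1, G (z.1, s * z.2))
      (∫ s in (0:ℝ)..1, (fderiv ℂ G (z₀.1, s * z₀.2)).comp (LL s)) z₀ ∧
    IntervalIntegrable (fun s : ℝ => (fderiv ℂ G (z₀.1, s * z₀.2)).comp (LL s)) volume 0 1 := by
  obtain ⟨r, hr, hrP⟩ := exists_rad hP hst hz₀
  have hcont : ∀ z ∈ P, ContinuousOn (fun s : ℝ => G (z.1, s * z.2)) (Icc (0:ℝ) 1) := by
    intro z hz
    refine hG.continuousOn.comp (by fun_prop) ?_
    intro s hs
    exact hst z hz s hs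
  have hIoc : uIoc (0:ℝ) 1 = Ioc 0 1 := uIoc_of_le zero_le_one
  have hsub : Ioc (0:ℝ) 1 ⊆ Icc 0 1 := Ioc_subset_Icc_self
  have hballP : Metric.ball z₀ r ⊆ P := by
    intro z hz
    have := hrP z hz 1 ⟨zero_le_one, le_refl _⟩ (Metric.mem_closedBall_self hr.le)
    simpa using this
  have hmeas : AEStronglyMeasurable (fun s : ℝ => (fderiv ℂ G (z₀.1, s * z₀.2)).comp (LL s))
      (volume.restrict (uIoc (0:ℝ) 1)) := by
    have h1 : Measurable (fun s : ℝ => fderiv ℂ G ((z₀.1, s * z₀.2) : ℂ × ℂ)) :=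
      (measurable_fderiv ℂ G).comp (by fun_prop : Continuous fun s : ℝ =>
        ((z₀.1, s * z₀.2) : ℂ × ℂ)).measurable
    have h2 : StronglyMeasurable (fun s : ℝ => fderiv ℂ G ((z₀.1, s * z₀.2) : ℂ × ℂ)) :=
      h1.stronglyMeasurable
    have h3 : StronglyMeasurable LL := LL_cont.stronglyMeasurable
    have hc : Continuous (fun q : ((ℂ × ℂ) →L[ℂ] ℂ) × ((ℂ × ℂ) →L[ℂ] (ℂ × ℂ)) =>
      q.1.comp q.2) := by fun_prop
    exact (hc.comp_stronglyMeasurable (h2.prodMk h3)).aestronglyMeasurable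
  have hbound : ∀ᵐ s : ℝ, s ∈ uIoc (0:ℝ) 1 → ∀ z ∈ Metric.ball z₀ r,
      ‖(fderiv ℂ G (z.1, s * z.2)).comp (LL s)‖ ≤ M / r := by
    refine Filter.Eventually.of_forall fun s hs z hz => ?_
    rw [hIoc] at hs
    have hM0 : 0 ≤ M := (norm_nonneg _).trans (hM z₀ hz₀)
    calc ‖(fderiv ℂ G (z.1, s * z.2)).comp (LL s)‖
        ≤ ‖fderiv ℂ G (z.1, s * z.2)‖ * ‖LL s‖ := ContinuousLinearMap.opNorm_comp_le _ _
      _ ≤ M / r * 1 := by
          gcongr
          · exact fderiv_bd hP hG hM hr (hrP z hz s (hsub hs))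
          · exact LL_norm (hsub hs)
      _ = M / r := mul_one _
  refine ⟨?_, ?_⟩
  · refine intervalIntegral.hasFDerivAt_integral_of_dominated_of_fderiv_le
      (F := fun z s => G (z.1, s * z.2))
      (F' := fun z s => (fderiv ℂ G (z.1, s * z.2)).comp (LL s))
      (bound := fun _ => M / r) (s := Metric.ball z₀ r)
      (Metric.ball_mem_nhds z₀ hr) ?_ ?_ hmeas hbound ?_ ?_
    · filter_upwards [hP.mem_nhds hz₀] with z hz
      rw [hIoc]
      exact ((hcont z hz).mono hsub).aestronglyMeasurable measurableSet_Ioc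
    · exact (hcont z₀ hz₀).intervalIntegrable_of_Icc zero_le_one
    · exact intervalIntegrable_const
    · refine Filter.Eventually.of_forall fun s hs z hz => ?_
      rw [hIoc] at hs
      have hzs : ((z.1, s * z.2) : ℂ × ℂ) ∈ P := hst z (hballP hz) s (hsub hs)
      have h1 : HasFDerivAt G (fderiv ℂ G (z.1, s * z.2)) (LL s z) := by
        rw [LL_apply]
        exact ((hG _ hzs).differentiableAt (hP.mem_nhds hzs)).hasFDerivAt
      have h2 := h1.comp z (LL s).hasFDerivAt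
      refine h2.congr_of_eventuallyEq (Filter.Eventually.of_forall fun y => ?_)
      simp only [Function.comp, LL_apply]
  · rw [intervalIntegrable_iff, hIoc]
    rw [hIoc] at hmeas
    refine IntegrableOn.of_bound (by simp) hmeas (M / r) ?_
    rw [ae_restrict_iff' measurableSet_Ioc]
    filter_upwards [hbound] with s hs h
    exact hs (by rw [hIoc]; exact h) z₀ (Metric.mem_ball_self hr)

/-- the star-shaped primitive -/
theorem hasDerivAt_prim {G : ℂ × ℂ → ℂ} {P : Set (ℂ × ℂ)} {M : ℝ} (hP : IsOpen P)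
    (hG : DifferentiableOn ℂ G P) (hM : ∀ z ∈ P, ‖G z‖ ≤ M)
    (hst : ∀ z ∈ P, ∀ s ∈ Icc (0:ℝ) 1, (z.1, s * z.2) ∈ P) {z₀ : ℂ × ℂ} (hz₀ : z₀ ∈ P) :
    HasDerivAt (fun y : ℂ => y * ∫ s in (0:ℝ)..1, G (z₀.1, s * y)) (G z₀) z₀.2 := by
  obtain ⟨h1, h2⟩ := hasFDerivAt_int hP hG hM hst hz₀
  -- the slice
  set Pq : Set ℂ := {y | (z₀.1, y) ∈ P} with hPq
  have hPqo : IsOpen Pq := hP.preimage (by fun_prop)
  have hGq : DifferentiableOn ℂ (fun y => G (z₀.1, y)) Pq := by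
    intro y hy
    have : DifferentiableAt ℂ G (z₀.1, y) := (hG _ hy).differentiableAt (hP.mem_nhds hy)
    exact (this.comp y (by fun_prop : DifferentiableAt ℂ (fun y => ((z₀.1, y) : ℂ × ℂ))
      y)).differentiableWithinAt
  have hder : ∀ y ∈ Pq, HasDerivAt (fun y => G (z₀.1, y)) (fderiv ℂ G (z₀.1, y) (0, 1)) y := by
    intro y hy
    have h3 : HasFDerivAt G (fderiv ℂ G (z₀.1, y)) (z₀.1, y) :=
      ((hG _ hy).differentiableAt (hP.mem_nhds hy)).hasFDerivAt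
    have h4 : HasDerivAt (fun y : ℂ => ((z₀.1, y) : ℂ × ℂ)) (0, 1) y :=
      (hasDerivAt_const y z₀.1).prodMk (hasDerivAt_id y)
    exact h3.comp_hasDerivAt y h4
  have hdc : ContinuousOn (deriv fun y => G (z₀.1, y)) Pq :=
    (hGq.deriv hPqo).continuousOn
  have hsP : ∀ s ∈ Icc (0:ℝ) 1, (s : ℂ) * z₀.2 ∈ Pq := fun s hs => hst z₀ hz₀ s hs
  have h4 : HasDerivAt (fun y : ℂ => ((z₀.1, y) : ℂ × ℂ)) (0, 1) z₀.2 :=
    (hasDerivAt_const z₀.2 z₀.1).prodMk (hasDerivAt_id z₀.2)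
  have h5 : HasDerivAt (fun y : ℂ => ∫ s in (0:ℝ)..1, G (z₀.1, s * y))
      ((∫ s in (0:ℝ)..1, (fderiv ℂ G (z₀.1, s * z₀.2)).comp (LL s)) (0, 1)) z₀.2 := by
    have := h1.comp_hasDerivAt z₀.2 (f := fun y : ℂ => ((z₀.1, y) : ℂ × ℂ)) h4
    exact this
  have h6 : (∫ s in (0:ℝ)..1, (fderiv ℂ G (z₀.1, s * z₀.2)).comp (LL s)) (0, 1)
      = ∫ s in (0:ℝ)..1, (s : ℂ) * deriv (fun y => G (z₀.1, y)) (s * z₀.2) := by
    rw [ContinuousLinearMap.intervalIntegral_apply h2]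
    refine intervalIntegral.integral_congr fun s hs => ?_
    rw [uIcc_of_le zero_le_one] at hs
    simp only [ContinuousLinearMap.comp_apply, LL_apply, mul_one]
    rw [(hder _ (hsP s hs)).deriv]
    have : ((0, (s : ℂ)) : ℂ × ℂ) = (s : ℂ) • (0, 1) := by simp
    rw [this, map_smul, smul_eq_mul]
  rw [h6] at h5
  have h7 := (hasDerivAt_id z₀.2).mul h5
  simp only [id] at h7
  -- fundamental theorem
  have hc1 : ContinuousOn (fun s : ℝ => G (z₀.1, s * z₀.2)) (Icc (0:ℝ) 1) :=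
    hG.continuousOn.comp (by fun_prop) (fun s hs => hst z₀ hz₀ s hs)
  have hc2 : ContinuousOn (fun s : ℝ => (s : ℂ) * deriv (fun y => G (z₀.1, y)) (s * z₀.2))
      (Icc (0:ℝ) 1) := by
    refine ContinuousOn.mul (by fun_prop) ?_
    exact hdc.comp (f := fun s : ℝ => (s : ℂ) * z₀.2) (by fun_prop) (fun s hs => hsP s hs)
  have h8 : ∫ s in (0:ℝ)..1, (G (z₀.1, s * z₀.2) +
      z₀.2 * ((s : ℂ) * deriv (fun y => G (z₀.1, y)) (s * z₀.2))) = G z₀ := by
    have := intervalIntegral.integral_eq_sub_of_hasDerivAt (a := (0:ℝ)) (b := 1)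
      (f := fun s : ℝ => (s : ℂ) * G (z₀.1, s * z₀.2))
      (f' := fun s : ℝ => G (z₀.1, s * z₀.2) +
        z₀.2 * ((s : ℂ) * deriv (fun y => G (z₀.1, y)) (s * z₀.2))) ?_ ?_
    · rw [this]
      simp
    · intro s hs
      rw [uIcc_of_le zero_le_one] at hs
      have e1 : HasDerivAt (fun c : ℂ => G (z₀.1, c * z₀.2))
          (deriv (fun y => G (z₀.1, y)) (s * z₀.2) * z₀.2) (s : ℂ) := by
        have a1 : HasDerivAt (fun y => G (z₀.1, y)) (deriv (fun y => G (z₀.1, y)) (s * z₀.2))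
            ((s : ℂ) * z₀.2) := (hder _ (hsP s hs)).differentiableAt.hasDerivAt
        have a2 : HasDerivAt (fun c : ℂ => c * z₀.2) z₀.2 (s : ℂ) := by
          simpa using (hasDerivAt_id (s : ℂ)).mul_const z₀.2
        exact a1.comp (s : ℂ) a2
      have e2 := ((hasDerivAt_id (s : ℂ)).mul e1).comp_ofReal
      refine e2.congr_deriv ?_
      simp only [id]
      ring
    · refine ContinuousOn.intervalIntegrable ?_
      rw [uIcc_of_le zero_le_one]
      exact hc1.add (continuousOn_const.mul hc2)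
  refine h7.congr_deriv ?_
  have hi1 : IntervalIntegrable (fun s : ℝ => G (z₀.1, s * z₀.2)) volume 0 1 :=
    hc1.intervalIntegrable_of_Icc zero_le_one
  have hi2 : IntervalIntegrable (fun s : ℝ => z₀.2 *
      ((s : ℂ) * deriv (fun y => G (z₀.1, y)) (s * z₀.2))) volume 0 1 :=
    (hc2.intervalIntegrable_of_Icc zero_le_one).const_mul _
  rw [← h8, intervalIntegral.integral_add hi1 hi2, intervalIntegral.integral_const_mul, one_mul]

theorem ft_e : GReg → GMom → GE := by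
  intro hReg hMom S hS W r₂ r₃ M k₀ hW
  obtain ⟨_, _, _, hstarReg, _, hNbo, _, _, _, _, _, _, _⟩ := hReg S hS
  obtain ⟨kk, Mp, hkk, hMp, -, -, hmom⟩ := hMom S hS
  have hbdW : ∀ t ∈ Icc (0:ℝ) 1, ∀ z ∈ Pb S t r₂, ‖W t z.1 z.2‖ ≤ |M| :=
    fun t ht z hz => ((hW.bd t ht z hz).1).trans (le_abs_self M)
  have hcontW : ∀ t ∈ Icc (0:ℝ) 1, ∀ z ∈ Pb S t r₂,
      ContinuousOn (fun s : ℝ => W t z.1 (s * z.2)) (Icc (0:ℝ) 1) := by
    intro t ht z hz
    exact (hW.hol t ht).continuousOn.comp (f := fun s : ℝ => ((z.1, s * z.2) : ℂ × ℂ))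
      (by fun_prop) (fun s hs => hW.star t ht z hz s hs)
  have hsub : Ioc (0:ℝ) 1 ⊆ Icc 0 1 := Ioc_subset_Icc_self
  have hIoc : uIoc (0:ℝ) 1 = Ioc 0 1 := uIoc_of_le zero_le_one
  have hEfd : ∀ t ∈ Icc (0:ℝ) 1, ∀ z ∈ Pb S t r₂,
      HasDerivAt (fun y => Ef W t z.1 y) (W t z.1 z.2) z.2 := by
    intro t ht z hz
    exact hasDerivAt_prim (G := fun z : ℂ × ℂ => W t z.1 z.2) (hW.opn t) (hW.hol t ht)
      (hbdW t ht) (fun z hz s hs => hW.star t ht z hz s hs) hz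
  refine ⟨?_, ?_, ?_⟩
  · -- continuity
    have h1 : ContinuousOn (fun y : ℝ × (ℂ × ℂ) => ∫ s in (0:ℝ)..1, W y.1 y.2.1 (s * y.2.2))
        {y | y.1 ∈ Icc (0:ℝ) 1 ∧ y.2 ∈ Pb S y.1 r₂} := by
      intro y₀ hy₀
      refine intervalIntegral.continuousWithinAt_of_dominated_interval
        (F := fun (y : ℝ × (ℂ × ℂ)) (s : ℝ) => W y.1 y.2.1 (s * y.2.2))
        (bound := fun _ => |M|) ?_ ?_ intervalIntegrable_const ?_
      · filter_upwards [self_mem_nhdsWithin] with y hy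
        rw [hIoc]
        exact ((hcontW y.1 hy.1 y.2 hy.2).mono hsub).aestronglyMeasurable measurableSet_Ioc
      · filter_upwards [self_mem_nhdsWithin] with y hy
        refine Filter.Eventually.of_forall fun s hs => ?_
        rw [hIoc] at hs
        exact hbdW y.1 hy.1 _ (hW.star y.1 hy.1 y.2 hy.2 s (hsub hs))
      · refine Filter.Eventually.of_forall fun s hs => ?_
        rw [hIoc] at hs
        have h2 := hW.cont.comp (f := fun y : ℝ × (ℂ × ℂ) =>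
          ((y.1, (y.2.1, s * y.2.2)) : ℝ × (ℂ × ℂ)))
          (s := {y : ℝ × (ℂ × ℂ) | y.1 ∈ Icc (0:ℝ) 1 ∧ y.2 ∈ Pb S y.1 r₂}) (by fun_prop)
          (fun y hy => ⟨hy.1, hW.star y.1 hy.1 y.2 hy.2 s (hsub hs)⟩)
        exact h2 y₀ hy₀
    have h3 : ContinuousOn (fun y : ℝ × (ℂ × ℂ) => y.2.2)
        {y | y.1 ∈ Icc (0:ℝ) 1 ∧ y.2 ∈ Pb S y.1 r₂} := by fun_prop
    exact h3.mul h1
  · -- bound
    refine ⟨(Mp + r₂) * |M|, ?_⟩
    intro t ht z hz
    obtain ⟨y, hy, _, hy2⟩ := hz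
    have hyN : (((y.1 : ℂ), (y.2 : ℂ)) : ℂ × ℂ) ∈ S.Nb t S.r :=
      ⟨y, hy, by simpa using hS.hr, by simpa using hS.hr⟩
    have hp : ‖S.p t (y.1 : ℂ) (y.2 : ℂ)‖ ≤ Mp := by
      have := (hmom t ht).2.2 _ hyN
      exact this.2.2.2.2.2.1
    have hz2 : ‖z.2‖ ≤ Mp + r₂ := by
      calc ‖z.2‖ = ‖S.p t (y.1 : ℂ) (y.2 : ℂ) + (z.2 - S.p t (y.1 : ℂ) (y.2 : ℂ))‖ := by
            congr 1; ring
        _ ≤ ‖S.p t (y.1 : ℂ) (y.2 : ℂ)‖ + ‖z.2 - S.p t (y.1 : ℂ) (y.2 : ℂ)‖ := norm_add_le _ _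
        _ ≤ Mp + r₂ := by linarith
    have hz' : z ∈ Pb S t r₂ := ⟨y, hy, ‹_›, hy2⟩
    have hint : ‖∫ s in (0:ℝ)..1, W t z.1 (s * z.2)‖ ≤ |M| := by
      have := intervalIntegral.norm_integral_le_of_norm_le_const (a := (0:ℝ)) (b := 1)
        (f := fun s : ℝ => W t z.1 (s * z.2)) (C := |M|) (fun s hs => by
          rw [hIoc] at hs
          exact hbdW t ht _ (hW.star t ht z hz' s (hsub hs)))
      simpa using this
    unfold Ef
    rw [norm_mul]
    exact mul_le_mul hz2 hint (norm_nonneg _) (by linarith [hW.h2])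
  · intro t ht
    refine ⟨?_, ?_, ?_⟩
    · intro z hz
      have h1 := (hasFDerivAt_int (G := fun z : ℂ × ℂ => W t z.1 z.2) (hW.opn t) (hW.hol t ht)
        (hbdW t ht) (fun z hz s hs => hW.star t ht z hz s hs) hz).1
      have h2 : DifferentiableAt ℂ (fun z : ℂ × ℂ => z.2) z := by fun_prop
      exact (h2.mul h1.differentiableAt).differentiableWithinAt
    · intro z hz
      refine ⟨hEfd t ht z hz, ?_⟩
      unfold Ef
      congr 1
      refine intervalIntegral.integral_congr fun s hs => ?_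
      rw [uIcc_of_le zero_le_one] at hs
      exact (hW.per t ht _ (hW.star t ht z hz s hs)).2
    · intro z hz
      -- the whole segment
      have hseg : ∀ s ∈ Icc (0:ℝ) 1, ((z.1, s * z.2) : ℂ × ℂ) ∈ S.Nb t r₃ := by
        intro s hs
        obtain ⟨y, hy, hy1, hy2⟩ := hz
        refine ⟨(y.1, s * y.2), hstarReg t ht s hs y hy, hy1, ?_⟩
        simp only [Complex.ofReal_mul]
        rw [← mul_sub, norm_mul, Complex.norm_real, Real.norm_of_nonneg hs.1]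
        calc s * ‖z.2 - (y.2 : ℂ)‖ ≤ 1 * ‖z.2 - (y.2 : ℂ)‖ := by
              gcongr
              exact hs.2
          _ < r₃ := by rw [one_mul]; exact hy2
      have hNbsub : ∀ z' ∈ S.Nb t r₃, z' ∈ S.Nb t S.r := by
        rintro z' ⟨y, hy, h1, h2⟩
        exact ⟨y, hy, h1.trans_le hW.h3', h2.trans_le hW.h3'⟩
      have hder : ∀ s ∈ uIcc (0:ℝ) 1, HasDerivAt (fun s : ℝ =>
          Ef W t z.1 (S.p t z.1 (s * z.2)) - S.En t z.1 (s * z.2)) 0 s := by
        intro s hs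
        rw [uIcc_of_le zero_le_one] at hs
        have hz1 := hseg s hs
        obtain ⟨hd1, hd2, -⟩ := (hmom t ht).2.2 _ (hNbsub _ hz1)
        obtain ⟨hwp1, hwp2⟩ := hW.Wp t ht _ hz1
        simp only at hd1 hd2 hwp1 hwp2
        have a2 : HasDerivAt (fun c : ℂ => c * z.2) z.2 (s : ℂ) := by
          simpa using (hasDerivAt_id (s : ℂ)).mul_const z.2
        have b1 := hEfd t ht _ hwp1
        simp only at b1
        rw [hwp2] at b1
        have c1 : HasDerivAt (fun c : ℂ => S.p t z.1 (c * z.2)) _ (s : ℂ) :=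
          HasDerivAt.comp (s : ℂ) (h₂ := fun w => S.p t z.1 w) hd1 a2
        have c2 : HasDerivAt (fun c : ℂ => Ef W t z.1 (S.p t z.1 (c * z.2))) _ (s : ℂ) :=
          HasDerivAt.comp (s : ℂ) (h₂ := fun y => Ef W t z.1 y) b1 c1
        have c3 : HasDerivAt (fun c : ℂ => S.En t z.1 (c * z.2)) _ (s : ℂ) :=
          HasDerivAt.comp (s : ℂ) (h₂ := fun w => S.En t z.1 w) hd2 a2
        have c4 := (c2.sub c3).comp_ofReal
        refine c4.congr_deriv ?_
        ring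
      have hftc := intervalIntegral.integral_eq_sub_of_hasDerivAt hder
        (intervalIntegrable_const)
      simp only [intervalIntegral.integral_zero, Complex.ofReal_one, one_mul,
        Complex.ofReal_zero, zero_mul] at hftc
      have hp0 : S.p t z.1 0 = 0 := by simp [Sys.p]
      have hE0 : S.En t z.1 0 = 0 := by simp [Sys.En]
      have hf0 : Ef W t z.1 0 = 0 := by simp [Ef]
      rw [hp0, hE0, hf0, sub_zero, sub_zero] at hftc
      exact sub_eq_zero.1 hftc.symm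

end Pool.Agent.Helper89.FT
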